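import Pool.Agent.Lib.MP_257afc_co.Expo
import Pool.Agent.Lib.MP_257afc_co.ZO.Base

/-!
Module GEOM: from 0/1-points to convex hulls in `ℝ^d`.
-/

set_option autoImplicit false

namespace Pool.Agent.Lib.MP_257afc_co.ZO.H87

open Finset Module

/-- The 0/1 vectors. -/
abbrev CV (l : ℕ) : Set (Fin l → ℝ) := {x | ∀ i, x i = 0 ∨ x i = 1}

theorem bv_cases (b : Bool) : bv b = 0 ∨ bv b = 1 := by
  cases b <;> simp [bv]

theorem bv_inj : Function.Injective bv := by
  intro a b h
  cases a <;> cases b <;> simp_all [bv]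

/-- The point with the given bits. -/
noncomputable def vec {l : ℕ} (x : Fin l → Bool) : Fin l → ℝ := fun i => bv (x i)

theorem vec_mem {l : ℕ} (x : Fin l → Bool) : vec x ∈ CV l := fun i => bv_cases (x i)

theorem vec_inj {l : ℕ} : Function.Injective (vec (l := l)) := by
  intro a b h
  funext i
  exact bv_inj (congrFun h i)

theorem exists_vec {l : ℕ} {p : Fin l → ℝ} (hp : p ∈ CV l) : ∃ x, vec x = p := by
  classical
  refine ⟨fun i => decide (p i = 1), ?_⟩
  funext i
  rcases hp i with h | h <;> simp [vec, bv, h]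

theorem range_vec (l : ℕ) : Set.range (vec (l := l)) = CV l := by
  ext p
  exact ⟨by rintro ⟨x, rfl⟩; exact vec_mem x, fun h => exists_vec h⟩

theorem affineSpan_CV (l : ℕ) : affineSpan ℝ (CV l) = ⊤ := by
  classical
  have h0 : (0 : Fin l → ℝ) ∈ CV l := fun i => Or.inl rfl
  have hne : (affineSpan ℝ (CV l) : Set (Fin l → ℝ)).Nonempty :=
    ⟨0, subset_affineSpan ℝ _ h0⟩
  rw [← AffineSubspace.direction_eq_top_iff_of_nonempty hne, direction_affineSpan,
    Submodule.eq_top_iff']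
  intro x
  have hx : x = ∑ i, x i • (Pi.single i (1 : ℝ) : Fin l → ℝ) := by
    ext j
    rw [Finset.sum_apply, Finset.sum_eq_single j]
    · simp
    · intro i _ hij
      simp [Pi.single_eq_of_ne hij.symm]
    · simp
  rw [hx]
  refine Submodule.sum_mem _ fun i _ => Submodule.smul_mem _ _ ?_
  have h1 : (Pi.single i (1 : ℝ) : Fin l → ℝ) ∈ CV l := by
    intro j
    by_cases hij : j = i
    · subst hij; right; simp
    · left; simp [hij]
  have := vsub_mem_vectorSpan ℝ h1 h0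
  simpa using this

theorem ext_CV (l : ℕ) : (convexHull ℝ (CV l)).extremePoints ℝ = CV l := by
  have h := (cubeSys l).extremePoints_eq
  rwa [coe_cubeSys_V] at h

section Transport

variable {V E : Type*} [NormedAddCommGroup V] [NormedSpace ℝ V] [FiniteDimensional ℝ V]
  [NormedAddCommGroup E] [NormedSpace ℝ E] [FiniteDimensional ℝ E]
  (Θ : V →ᵃ[ℝ] E) (Ψ : E →ᵃ[ℝ] V) (hΨ : ∀ x, Ψ (Θ x) = x)

include hΨ

omit [FiniteDimensional ℝ V] [FiniteDimensional ℝ E] in
theorem theta_inj : Function.Injective Θ := fun x y h => by rw [← hΨ x, h, hΨ y]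

omit [FiniteDimensional ℝ V] [FiniteDimensional ℝ E] in
theorem ext_image (A : Set V) :
    (Θ '' A).extremePoints ℝ = Θ '' (A.extremePoints ℝ) := by
  have hseg : ∀ a b c : V, Θ c ∈ openSegment ℝ (Θ a) (Θ b) ↔ c ∈ openSegment ℝ a b := by
    intro a b c
    rw [← image_openSegment]
    constructor
    · rintro ⟨d, hd, he⟩
      rwa [← theta_inj Θ Ψ hΨ he]
    · intro h
      exact ⟨c, h, rfl⟩
  ext x
  constructor
  · rintro ⟨⟨a, ha, rfl⟩, h⟩
    refine ⟨a, ⟨ha, ?_⟩, rfl⟩
    intro b hb c hc hac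
    exact theta_inj Θ Ψ hΨ (h (Set.mem_image_of_mem _ hb) (Set.mem_image_of_mem _ hc)
      ((hseg _ _ _).2 hac))
  · rintro ⟨a, ⟨ha, h⟩, rfl⟩
    refine ⟨Set.mem_image_of_mem _ ha, ?_⟩
    rintro _ ⟨b, hb, rfl⟩ _ ⟨c, hc, rfl⟩ hac
    rw [h hb hc ((hseg _ _ _).1 hac)]

theorem exposed_image (A B : Set V) : IsExposed ℝ (Θ '' A) (Θ '' B) ↔ IsExposed ℝ A B := by
  have hinj := theta_inj Θ Ψ hΨ
  constructor
  · intro h hne
    obtain ⟨f, hf⟩ := h (hne.image _)
    refine ⟨LinearMap.toContinuousLinearMap (f.toLinearMap ∘ₗ Θ.linear), ?_⟩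
    have hval : ∀ x y : V, f (Θ y) ≤ f (Θ x) ↔ f (Θ.linear y) ≤ f (Θ.linear x) := by
      intro x y
      have e : ∀ z, f (Θ z) = f (Θ.linear z) + f (Θ 0) := by
        intro z
        rw [← map_add]
        congr 1
        have := Θ.map_vadd 0 z
        simpa using this
      rw [e y, e x]
      constructor <;> intro h <;> linarith
    ext x
    constructor
    · intro hx
      have h1 : Θ x ∈ Θ '' B := Set.mem_image_of_mem _ hx
      rw [hf] at h1
      obtain ⟨⟨a, ha, hax⟩, h2⟩ := h1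
      rw [hinj hax] at ha
      refine ⟨ha, fun y hy => ?_⟩
      exact (hval x y).1 (h2 _ (Set.mem_image_of_mem _ hy))
    · rintro ⟨hx, h2⟩
      have h1 : Θ x ∈ Θ '' B := by
        rw [hf]
        refine ⟨Set.mem_image_of_mem _ hx, ?_⟩
        rintro _ ⟨y, hy, rfl⟩
        exact (hval x y).2 (h2 y hy)
      obtain ⟨a, ha, hax⟩ := h1
      rwa [← hinj hax]
  · intro h hne
    obtain ⟨f, hf⟩ := h (Set.image_nonempty.1 hne)
    refine ⟨LinearMap.toContinuousLinearMap (f.toLinearMap ∘ₗ Ψ.linear), ?_⟩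
    have hval : ∀ x y : V, f (Ψ.linear (Θ y)) ≤ f (Ψ.linear (Θ x)) ↔ f y ≤ f x := by
      intro x y
      have e : ∀ z, f z = f (Ψ.linear (Θ z)) + f (Ψ 0) := by
        intro z
        rw [← map_add]
        congr 1
        have := Ψ.map_vadd 0 (Θ z)
        have h2 := hΨ z
        simp only [vadd_eq_add, add_zero] at this
        rw [← this, h2]
      rw [e x, e y]
      constructor <;> intro h <;> linarith
    ext x
    constructor
    · rintro ⟨b, hb, rfl⟩
      rw [hf] at hb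
      refine ⟨Set.mem_image_of_mem _ hb.1, ?_⟩
      rintro _ ⟨y, hy, rfl⟩
      exact (hval b y).2 (hb.2 y hy)
    · rintro ⟨⟨b, hb, rfl⟩, h2⟩
      refine Set.mem_image_of_mem _ ?_
      rw [hf]
      refine ⟨hb, fun y hy => ?_⟩
      exact (hval b y).1 (h2 _ (Set.mem_image_of_mem _ hy))

end Transport

/-- Sets with an affine parametrisation by the cube are cubes. -/
theorem cube_concl {d l : ℕ} (Θ : (Fin l → ℝ) →ᵃ[ℝ] EuclideanSpace ℝ (Fin d))
    (Ψ : EuclideanSpace ℝ (Fin d) →ᵃ[ℝ] (Fin l → ℝ)) (hΨ : ∀ x, Ψ (Θ x) = x)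
    (F : Set (EuclideanSpace ℝ (Fin d))) (hF : F = Θ '' (convexHull ℝ (CV l))) :
    Module.finrank ℝ (affineSpan ℝ F).direction = l ∧
      ∃ e : F.extremePoints ℝ ≃ ({x | ∀ i, x i = 0 ∨ x i = 1} : Set (Fin l → ℝ)),
        ∀ A : Set (F.extremePoints ℝ),
          (∃ G : Set (EuclideanSpace ℝ (Fin d)), IsExposed ℝ F G ∧
            Subtype.val '' A = G ∩ F.extremePoints ℝ) ↔
          ∃ H : Set (Fin l → ℝ),
            IsExposed ℝ (convexHull ℝ ({x | ∀ i, x i = 0 ∨ x i = 1} : Set (Fin l → ℝ))) H ∧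
            Subtype.val '' (e '' A) = H ∩ {x | ∀ i, x i = 0 ∨ x i = 1} := by
  subst hF
  have hinj := theta_inj Θ Ψ hΨ
  constructor
  · rw [← AffineSubspace.map_span, affineSpan_convexHull, affineSpan_CV,
      AffineSubspace.map_direction, AffineSubspace.direction_top, Submodule.map_top,
      LinearMap.finrank_range_of_inj ((Θ.linear_injective_iff).2 hinj)]
    simp
  · have hext : (Θ '' (convexHull ℝ (CV l))).extremePoints ℝ = Θ '' (CV l) := by
      rw [ext_image Θ Ψ hΨ, ext_CV]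
    have hmem : ∀ z, z ∈ (Θ '' (convexHull ℝ (CV l))).extremePoints ℝ → Ψ z ∈ CV l ∧ Θ (Ψ z) = z := by
      intro z hz
      rw [hext] at hz
      obtain ⟨c, hc, rfl⟩ := hz
      rw [hΨ]
      exact ⟨hc, rfl⟩
    refine ⟨⟨fun z => ⟨Ψ z.1, (hmem z.1 z.2).1⟩, fun c => ⟨Θ c.1, by
      rw [hext]; exact Set.mem_image_of_mem _ c.2⟩, ?_, ?_⟩, ?_⟩
    · rintro ⟨z, hz⟩
      exact Subtype.ext (hmem z hz).2
    · rintro ⟨c, hc⟩
      exact Subtype.ext (hΨ c)
    · intro A
      have himg : (Subtype.val '' ((fun z : (Θ '' (convexHull ℝ (CV l))).extremePoints ℝ =>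
          (⟨Ψ z.1, (hmem z.1 z.2).1⟩ : CV l)) '' A)) = Ψ '' (Subtype.val '' A) := by
        rw [Set.image_image, Set.image_image]
      constructor
      · rintro ⟨G, hG, hA⟩
        refine ⟨Θ ⁻¹' G, ?_, ?_⟩
        · rw [← exposed_image Θ Ψ hΨ, Set.image_preimage_eq_of_subset]
          · exact hG
          · exact hG.subset.trans (Set.image_subset_range _ _)
        · refine himg.trans ?_
          rw [hA, hext]
          ext c
          constructor
          · rintro ⟨z, ⟨hz, c', hc', rfl⟩, rfl⟩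
            rw [hΨ]
            exact ⟨hz, hc'⟩
          · rintro ⟨h1, h2⟩
            exact ⟨Θ c, ⟨h1, Set.mem_image_of_mem _ h2⟩, hΨ c⟩
      · rintro ⟨H, hH, hA⟩
        refine ⟨Θ '' H, (exposed_image Θ Ψ hΨ _ _).2 hH, ?_⟩
        have hA' : Ψ '' (Subtype.val '' A) = H ∩ CV l := himg.symm.trans hA
        have h1 : Subtype.val '' A = Θ '' (Ψ '' (Subtype.val '' A)) := by
          ext z
          constructor
          · rintro ⟨⟨w, hw⟩, hwA, rfl⟩
            exact ⟨Ψ w, ⟨w, ⟨⟨w, hw⟩, hwA, rfl⟩, rfl⟩, (hmem w hw).2⟩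
          · rintro ⟨_, ⟨_, ⟨⟨w, hw⟩, hwA, rfl⟩, rfl⟩, rfl⟩
            exact ⟨⟨w, hw⟩, hwA, (hmem w hw).2.symm⟩
        rw [h1, hA', hext, Set.image_inter hinj]

/-- Affine functions pulled back along an affine map with 0/1 coordinates. -/
theorem aff_pull {E : Type*} [NormedAddCommGroup E] [NormedSpace ℝ E] [FiniteDimensional ℝ E]
    {m : ℕ} (φ : E →ᵃ[ℝ] (Fin m → ℝ)) {h : (Fin m → Bool) → ℝ} (hh : Aff h) :
    ∃ (f : E →L[ℝ] ℝ) (b : ℝ), ∀ (x : E) (y : Fin m → Bool), (∀ i, φ x i = bv (y i)) →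
      h y = f x + b := by
  obtain ⟨c, w, hw⟩ := hh
  have hlin : ∀ x i, φ x i = φ.linear x i + φ 0 i := by
    intro x i
    have := φ.map_vadd 0 x
    simp only [vadd_eq_add, add_zero] at this
    rw [this]
    rfl
  refine ⟨LinearMap.toContinuousLinearMap
    ((∑ i, w i • LinearMap.proj i : (Fin m → ℝ) →ₗ[ℝ] ℝ) ∘ₗ φ.linear),
    c + ∑ i, w i * φ 0 i, ?_⟩
  intro x y hy
  rw [hw]
  have : ∀ i, bv (y i) = φ.linear x i + φ 0 i := fun i => by rw [← hy, hlin]
  simp only [this, mul_add, Finset.sum_add_distrib]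
  simp only [LinearMap.coe_toContinuousLinearMap', LinearMap.comp_apply, LinearMap.sum_apply,
    LinearMap.smul_apply, LinearMap.proj_apply, smul_eq_mul]
  ring

theorem bv_decide {t : ℝ} (h : t = 0 ∨ t = 1) : t = bv (decide (t = 1)) := by
  rcases h with h | h <;> simp [bv, h]

theorem linear_eq {V W : Type*} [AddCommGroup V] [Module ℝ V] [AddCommGroup W] [Module ℝ W]
    (φ : V →ᵃ[ℝ] W) (x : V) : φ x = φ.linear x + φ 0 := by
  have := φ.map_vadd 0 x
  simpa only [vadd_eq_add, add_zero] using this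

theorem simplex_concl {d m k : ℕ} {φ : EuclideanSpace ℝ (Fin d) →ᵃ[ℝ] (Fin m → ℝ)}
    {T : Finset (EuclideanSpace ℝ (Fin d))} {β : EuclideanSpace ℝ (Fin d) → Fin m → Bool}
    (hβ : ∀ x ∈ T, ∀ i, φ x i = bv (β x i)) (hinj : ∀ x ∈ T, ∀ y ∈ T, β x = β y → x = y)
    {G : Set (Fin m → Bool)} (hTG : β '' (T : Set (EuclideanSpace ℝ (Fin d))) = G)
    (hG : IsSimp G (k + 1)) :
    Module.finrank ℝ (affineSpan ℝ (convexHull ℝ
      (T : Set (EuclideanSpace ℝ (Fin d))))).direction = k ∧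
    ∃ T' : Finset (EuclideanSpace ℝ (Fin d)), T'.card = k + 1 ∧
        AffineIndependent ℝ (fun x : T' => (x : EuclideanSpace ℝ (Fin d))) ∧
        convexHull ℝ (T : Set (EuclideanSpace ℝ (Fin d))) =
          convexHull ℝ (T' : Set (EuclideanSpace ℝ (Fin d))) := by
  classical
  obtain ⟨g, a, hGg, ha, hag⟩ := hG
  have hp : ∀ i, ∃ x ∈ T, β x = g i := by
    intro i
    have : g i ∈ G := by rw [hGg]; exact ⟨i, rfl⟩
    rw [← hTG] at this
    obtain ⟨x, hx, hxg⟩ := this
    exact ⟨x, by exact_mod_cast hx, hxg⟩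
  choose p hpT hpg using hp
  have hf : ∀ i, ∃ (f : EuclideanSpace ℝ (Fin d) →L[ℝ] ℝ) (b : ℝ),
      ∀ j, f (p j) + b = if i = j then 1 else 0 := by
    intro i
    obtain ⟨f, b, h⟩ := aff_pull φ (ha i)
    refine ⟨f, b, fun j => ?_⟩
    rw [← h (p j) (g j) (fun q => by rw [hβ (p j) (hpT j) q, hpg]), hag]
  choose f b hfb using hf
  have hind : AffineIndependent ℝ p := by
    rw [affineIndependent_iff]
    intro s w hw hws e he
    have h1 := congrArg (f e) hws
    rw [map_sum, map_zero] at h1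
    have h2 : ∑ j ∈ s, w j * (f e (p j) + b e) = 0 := by
      simp only [mul_add, Finset.sum_add_distrib, ← Finset.sum_mul, hw, zero_mul, add_zero]
      rw [← h1]
      exact Finset.sum_congr rfl fun j _ => by rw [map_smul, smul_eq_mul]
    rw [Finset.sum_eq_single e] at h2
    · simpa [hfb] using h2
    · intro j _ hj
      rw [hfb, if_neg (Ne.symm hj), mul_zero]
    · intro h; exact absurd he h
  have hsurj : ∀ x ∈ T, ∃ i, p i = x := by
    intro x hx
    have : β x ∈ G := by rw [← hTG]; exact Set.mem_image_of_mem _ (by exact_mod_cast hx)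
    rw [hGg] at this
    obtain ⟨i, hi⟩ := this
    exact ⟨i, hinj _ (hpT i) _ hx (by rw [hpg, hi])⟩
  let e : Fin (k + 1) → T := fun i => ⟨p i, hpT i⟩
  have he : Function.Bijective e := by
    constructor
    · intro i j hij
      exact hind.injective (Subtype.ext_iff.1 hij)
    · rintro ⟨x, hx⟩
      obtain ⟨i, hi⟩ := hsurj x hx
      exact ⟨i, Subtype.ext hi⟩
  have hcard : T.card = k + 1 := by
    rw [← Fintype.card_coe, ← Fintype.card_of_bijective he, Fintype.card_fin]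
  have hindT : AffineIndependent ℝ (fun x : T => (x : EuclideanSpace ℝ (Fin d))) := by
    rw [← affineIndependent_equiv (Equiv.ofBijective e he)]
    exact hind
  refine ⟨?_, T, hcard, hindT, rfl⟩
  have h := hindT.finrank_vectorSpan (n := k) (by rw [Fintype.card_coe, hcard])
  rw [affineSpan_convexHull, direction_affineSpan]
  have hr : (T : Set (EuclideanSpace ℝ (Fin d))) =
      Set.range (fun x : T => (x : EuclideanSpace ℝ (Fin d))) := by
    ext x
    simp
  rw [← hr] at h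
  exact h

theorem cube_case {d m l : ℕ} {φ : EuclideanSpace ℝ (Fin d) →ᵃ[ℝ] (Fin m → ℝ)}
    (hφ : Function.Injective φ)
    {T : Finset (EuclideanSpace ℝ (Fin d))} {β : EuclideanSpace ℝ (Fin d) → Fin m → Bool}
    (hβ : ∀ x ∈ T, ∀ i, φ x i = bv (β x i)) (hinj : ∀ x ∈ T, ∀ y ∈ T, β x = β y → x = y)
    {G : Set (Fin m → Bool)} (hTG : β '' (T : Set (EuclideanSpace ℝ (Fin d))) = G)
    (hG : IsCube G l) :
    ∃ (Θ : (Fin l → ℝ) →ᵃ[ℝ] EuclideanSpace ℝ (Fin d))
    (Ψ : EuclideanSpace ℝ (Fin d) →ᵃ[ℝ] (Fin l → ℝ)), (∀ x, Ψ (Θ x) = x) ∧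
      convexHull ℝ (T : Set (EuclideanSpace ℝ (Fin d))) = Θ '' (convexHull ℝ (CV l)) := by
  classical
  obtain ⟨g, f, u, hGg, haff, hgf⟩ := hG
  have hp : ∀ x, ∃ z ∈ T, β z = g x := by
    intro i
    have : g i ∈ G := by rw [hGg]; exact ⟨i, rfl⟩
    rw [← hTG] at this
    obtain ⟨x, hx, hxg⟩ := this
    exact ⟨x, by exact_mod_cast hx, hxg⟩
  choose p hpT hpg using hp
  have hφp : ∀ x q, φ (p x) q = bv (g x q) := fun x q => by rw [hβ _ (hpT x), hpg]
  let z0 : Fin l → Bool := fun _ => false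
  let ej : Fin l → Fin l → Bool := fun j i => decide (i = j)
  let Θ : (Fin l → ℝ) →ᵃ[ℝ] EuclideanSpace ℝ (Fin d) :=
    (∑ j, (LinearMap.proj j : (Fin l → ℝ) →ₗ[ℝ] ℝ).smulRight (p (ej j) - p z0)).toAffineMap +
      AffineMap.const ℝ _ (p z0)
  have hΘ : ∀ t, Θ t = ∑ j, t j • (p (ej j) - p z0) + p z0 := by
    intro t
    simp [Θ]
  let Ψ : EuclideanSpace ℝ (Fin d) →ᵃ[ℝ] (Fin l → ℝ) :=
    { toFun := fun x j => if u j then 1 - φ x (f j) else φ x (f j)
      linear := LinearMap.pi fun j =>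
        if u j then -(LinearMap.proj (f j) ∘ₗ φ.linear) else LinearMap.proj (f j) ∘ₗ φ.linear
      map_vadd' := by
        intro x v
        funext j
        have h1 : φ (v + x) (f j) = φ.linear v (f j) + φ x (f j) := by
          have := φ.map_vadd x v
          rw [vadd_eq_add] at this
          rw [this]; rfl
        by_cases hu : u j = true
        · simp only [hu, if_true, h1, vadd_eq_add, Pi.add_apply, LinearMap.pi_apply,
            LinearMap.neg_apply, LinearMap.comp_apply, LinearMap.proj_apply]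
          ring
        · simp only [hu, h1, vadd_eq_add, Pi.add_apply, LinearMap.pi_apply,
            LinearMap.comp_apply, LinearMap.proj_apply]
          simp }
  have hΨv : ∀ x j, Ψ x j = if u j then 1 - φ x (f j) else φ x (f j) := fun _ _ => rfl
  have hΨp : ∀ x, Ψ (p x) = vec x := by
    intro x
    funext j
    rw [hΨv, hφp, hgf]
    cases h1 : u j <;> cases h2 : x j <;> simp [vec, bv, h2]
  have hφΘ : ∀ x, Θ (vec x) = p x := by
    intro x
    apply hφ
    funext q
    obtain ⟨c, w, hw⟩ := haff q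
    have hlin : ∀ v, φ v q = φ.linear v q + φ 0 q := fun v => by
      rw [linear_eq φ v]; rfl
    have h1 : ∀ y, φ.linear (p y) q = (c + ∑ j, w j * bv (y j)) - φ 0 q := by
      intro y
      have hw' : bv (g y q) = c + ∑ j, w j * bv (y j) := hw y
      rw [← hw', ← hφp, hlin (p y)]; ring
    have hz0 : (∑ j, w j * bv (z0 j)) = 0 := Finset.sum_eq_zero fun j _ => by simp [z0, bv]
    have hej : ∀ i, (∑ j, w j * bv (ej i j)) = w i := by
      intro i
      rw [Finset.sum_eq_single i]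
      · simp [ej, bv]
      · intro j _ hj
        simp [ej, bv, hj]
      · simp
    rw [hΘ, hlin, hlin (p x), map_add, map_sum, Pi.add_apply, Finset.sum_apply]
    simp only [map_smul, map_sub, Pi.smul_apply, Pi.sub_apply, smul_eq_mul, h1, hz0, hej]
    have h2 : ∀ j, vec x j * (c + w j - φ 0 q - (c + 0 - φ 0 q)) = w j * bv (x j) := by
      intro j
      simp only [vec]; ring
    simp only [h2]
    ring
  have hΨΘ : ∀ t, Ψ (Θ t) = t := by
    intro t
    have h1 : ∀ j, Ψ.linear (p (ej j) - p z0) = (Pi.single j (1 : ℝ) : Fin l → ℝ) := by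
      intro j
      have e1 := linear_eq Ψ (p (ej j))
      have e2 := linear_eq Ψ (p z0)
      rw [hΨp] at e1 e2
      rw [map_sub]
      have e3 : Ψ.linear (p (ej j)) - Ψ.linear (p z0) = vec (ej j) - vec z0 := by
        rw [e1, e2]; abel
      rw [e3]
      funext i
      by_cases hij : i = j
      · subst hij
        simp [vec, ej, z0, bv]
      · simp [vec, ej, z0, bv, hij]
    rw [linear_eq Ψ, hΘ, map_add, map_sum]
    simp only [map_smul, h1]
    rw [add_assoc, ← linear_eq Ψ, hΨp]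
    funext i
    rw [Pi.add_apply, Finset.sum_apply, Finset.sum_eq_single i]
    · simp [vec, z0, bv]
    · intro j _ hj
      simp [Pi.single_eq_of_ne hj.symm]
    · simp
  refine ⟨Θ, Ψ, hΨΘ, ?_⟩
  rw [AffineMap.image_convexHull]
  congr 1
  rw [← range_vec, ← Set.range_comp]
  ext z
  constructor
  · intro hz
    have hz' : z ∈ T := by exact_mod_cast hz
    have : β z ∈ G := by rw [← hTG]; exact Set.mem_image_of_mem _ hz
    rw [hGg] at this
    obtain ⟨x, hx⟩ := this
    exact ⟨x, (hφΘ x).trans (hinj _ (hpT x) _ hz' (by rw [hpg, hx]))⟩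
  · rintro ⟨x, rfl⟩
    simp only [Function.comp_apply, hφΘ]
    exact_mod_cast hpT x

/-- The faces of the 0/1-points give exposed faces. -/
theorem face_case {d m : ℕ} {φ : EuclideanSpace ℝ (Fin d) →ᵃ[ℝ] (Fin m → ℝ)}
    {S : Finset (EuclideanSpace ℝ (Fin d))} {β : EuclideanSpace ℝ (Fin d) → Fin m → Bool}
    (hβ : ∀ x ∈ S, ∀ i, φ x i = bv (β x i))
    {G : Set (Fin m → Bool)} (hG : IsFace (β '' (S : Set (EuclideanSpace ℝ (Fin d)))) G) :
    ∃ T ⊆ S, T.Nonempty ∧ β '' (T : Set (EuclideanSpace ℝ (Fin d))) = G ∧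
      IsExposed ℝ (convexHull ℝ (S : Set (EuclideanSpace ℝ (Fin d))))
        (convexHull ℝ (T : Set (EuclideanSpace ℝ (Fin d)))) := by
  classical
  obtain ⟨⟨y0, hy0⟩, h, hh, hle, hiff⟩ := hG
  obtain ⟨f, b, hf⟩ := aff_pull φ hh
  have hval : ∀ x ∈ S, h (β x) = f x + b := fun x hx => hf x (β x) (hβ x hx)
  have himg : β '' ((S.filter (fun x => β x ∈ G) : Finset (EuclideanSpace ℝ (Fin d))) :
      Set (EuclideanSpace ℝ (Fin d))) = G := by
    ext y
    constructor
    · rintro ⟨x, hx, rfl⟩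
      have hx' : x ∈ S.filter (fun x => β x ∈ G) := by exact_mod_cast hx
      exact (Finset.mem_filter.1 hx').2
    · intro hy
      obtain ⟨⟨x, hx, rfl⟩, -⟩ := (hiff y).1 hy
      refine ⟨x, ?_, rfl⟩
      have : x ∈ S.filter (fun x => β x ∈ G) := Finset.mem_filter.2 ⟨by exact_mod_cast hx, hy⟩
      exact_mod_cast this
  have hne : (S.filter (fun x => β x ∈ G)).Nonempty := by
    have := hy0
    rw [← himg] at this
    obtain ⟨x, hx, -⟩ := this
    exact ⟨x, by exact_mod_cast hx⟩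
  refine ⟨S.filter (fun x => β x ∈ G), Finset.filter_subset _ _, hne, himg, ?_⟩
  refine exposed_hull f (-b) (Finset.filter_subset _ _) ?_ ?_ hne
  · intro z hz
    obtain ⟨hzS, hzG⟩ := Finset.mem_filter.1 hz
    have h1 := ((hiff _).1 hzG).2
    rw [hval z hzS] at h1
    linarith
  · intro z hzS hz
    have hzG : β z ∉ G := fun h => hz (Finset.mem_filter.2 ⟨hzS, h⟩)
    have h1 : β z ∈ β '' (S : Set (EuclideanSpace ℝ (Fin d))) :=
      Set.mem_image_of_mem _ (by exact_mod_cast hzS)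
    have h2 := hle _ h1
    have h3 : h (β z) ≠ 0 := fun h0 => hzG ((hiff _).2 ⟨h1, h0⟩)
    have h4 := lt_of_le_of_ne h2 h3
    rw [hval z hzS] at h4
    linarith

theorem card_le {d : ℕ} {S : Finset (EuclideanSpace ℝ (Fin d))}
    (hS : affineSpan ℝ (S : Set (EuclideanSpace ℝ (Fin d))) = ⊤) : d ≤ S.card := by
  classical
  rcases Nat.eq_zero_or_pos S.card with h | h
  · rw [Finset.card_eq_zero] at h
    subst h
    rw [Finset.coe_empty, AffineSubspace.span_empty] at hS
    exact absurd hS (AffineSubspace.bot_ne_top ℝ (EuclideanSpace ℝ (Fin d))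
      (EuclideanSpace ℝ (Fin d)))
  · obtain ⟨n, hn⟩ := Nat.exists_eq_succ_of_ne_zero h.ne'
    have h1 := finrank_vectorSpan_image_finset_le ℝ
      (id : EuclideanSpace ℝ (Fin d) → EuclideanSpace ℝ (Fin d)) S hn
    rw [Finset.image_id, ← direction_affineSpan, hS, AffineSubspace.direction_top, finrank_top,
      finrank_euclideanSpace_fin] at h1
    omega

/-- Module GEOM. -/
theorem geom : GeomStatement := by
  classical
  intro hcore k l
  obtain ⟨N, hN⟩ := hcore k l
  refine ⟨N, ?_⟩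
  intro d hd S hS hφ
  obtain ⟨m, φ, hφ, h01⟩ := hφ
  have hβ : ∀ x ∈ S, ∀ i, φ x i = bv ((fun x i => decide (φ x i = 1) :
      EuclideanSpace ℝ (Fin d) → Fin m → Bool) x i) := fun x hx i => bv_decide (h01 x hx i)
  generalize (fun x i => decide (φ x i = 1) :
      EuclideanSpace ℝ (Fin d) → Fin m → Bool) = β at hβ
  have hinj : ∀ x ∈ S, ∀ y ∈ S, β x = β y → x = y := by
    intro x hx y hy h
    apply hφ
    funext i
    rw [hβ x hx, hβ y hy, h]
  have hcard : N ≤ (β '' (S : Set (EuclideanSpace ℝ (Fin d)))).ncard := by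
    rw [Set.InjOn.ncard_image (fun x hx y hy h => hinj x (by exact_mod_cast hx) y
      (by exact_mod_cast hy) h), Set.ncard_coe_finset]
    exact hd.trans (card_le hS)
  rcases hN (Fin m) _ hcard with ⟨G, hG, hGS⟩ | ⟨G, hG, hGC⟩
  · left
    obtain ⟨T, hTS, hTne, hTG, hexp⟩ := face_case hβ hG
    obtain ⟨h1, h2⟩ := simplex_concl (fun x hx => hβ x (hTS hx))
      (fun x hx y hy => hinj x (hTS hx) y (hTS hy)) hTG hGS
    exact ⟨_, (by exact_mod_cast hTne : (T : Set (EuclideanSpace ℝ (Fin d))).Nonempty).convexHull,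
      hexp, h1, h2⟩
  · right
    obtain ⟨T, hTS, hTne, hTG, hexp⟩ := face_case hβ hG
    obtain ⟨Θ, Ψ, hΨ, hF⟩ := cube_case hφ (fun x hx => hβ x (hTS hx))
      (fun x hx y hy => hinj x (hTS hx) y (hTS hy)) hTG hGC
    obtain ⟨h1, h2⟩ := cube_concl Θ Ψ hΨ _ hF
    exact ⟨_, (by exact_mod_cast hTne : (T : Set (EuclideanSpace ℝ (Fin d))).Nonempty).convexHull,
      hexp, h1, h2⟩

end Pool.Agent.Lib.MP_257afc_co.ZO.H87
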